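import Pool.Agent.H86.CMLib9.W5h23.Four.Main
import Pool.Agent.H86.CMLib.TH118.CR.Nil

set_option autoImplicit false

/-!
# The Lie algebra of the Tate classes is not scalar on a strongly irreducible subspace
-/

namespace Pool.Agent.W5h27.UN

open Module TensorProduct Pool.Agent.H204R3.SP Pool.Agent.H204R3.GP Pool.Agent.W522.U

namespace NS

section desc

variable {k K : Type} [Field k] [Field K] [Algebra k K] {V : Type} [AddCommGroup V] [Module k V]

/-- the component of a vector of the extension given by a linear form on the extension field -/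
noncomputable def cp (V : Type) [AddCommGroup V] [Module k V] (π : K →ₗ[k] k) :
    K ⊗[k] V →ₗ[k] V :=
  (TensorProduct.lid k V).toLinearMap ∘ₗ LinearMap.rTensor V π

theorem cp_tmul (π : K →ₗ[k] k) (c : K) (v : V) : cp V π (c ⊗ₜ[k] v) = π c • v := by
  simp [cp]

theorem cp_baseChange (π : K →ₗ[k] k) (Y : End k V) (x : K ⊗[k] V) :
    cp V π (Y.baseChange K x) = Y (cp V π x) := by
  induction x with
  | zero => simp only [map_zero]
  | add a b ha hb => rw [map_add, map_add, ha, hb, map_add, map_add]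
  | tmul c v => rw [LinearMap.baseChange_tmul, cp_tmul, cp_tmul, map_smul]

theorem cp_sep [FiniteDimensional k V] (x : K ⊗[k] V) (h : ∀ π : K →ₗ[k] k, cp V π x = 0) :
    x = 0 := by
  let b := finBasis k V
  rw [← LinearEquiv.map_eq_zero_iff (b.baseChange K).repr]
  ext i
  rw [Finsupp.zero_apply, ← Module.forall_dual_apply_eq_zero_iff k]
  intro π
  have h1 := congrArg (b.coord i) (h π)
  have h2 : ∀ y : K ⊗[k] V, b.coord i (cp V π y) = π ((b.baseChange K).repr y i) := by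
    intro y
    induction y with
    | zero => simp only [map_zero, Finsupp.zero_apply]
    | add a c ha hc => rw [map_add, map_add, ha, hc, map_add, Finsupp.add_apply, map_add]
    | tmul c v =>
      rw [cp_tmul, map_smul, Basis.coord_apply, Basis.baseChange_repr_tmul, map_smul, smul_eq_mul,
        smul_eq_mul, mul_comm]
  rw [← h2, h1, map_zero]

/-- endomorphisms of the extension which commute with the elements of `L` commute with `g` if this
holds over the small field -/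
theorem comm_desc [FiniteDimensional k V] (L : Set (End k V)) (g : End k V)
    (hg : ∀ Z : End k V, (∀ Y ∈ L, Y * Z = Z * Y) → g * Z = Z * g) (Z' : End K (K ⊗[k] V))
    (hZ : ∀ Y ∈ L, ∀ x, Z' (Y.baseChange K x) = Y.baseChange K (Z' x)) (x : K ⊗[k] V) :
    Z' (g.baseChange K x) = g.baseChange K (Z' x) := by
  have h1 : ∀ v : V, Z' ((1 : K) ⊗ₜ[k] g v) = g.baseChange K (Z' ((1 : K) ⊗ₜ[k] v)) := by
    intro v
    rw [← sub_eq_zero]
    refine cp_sep _ fun π => ?_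
    let Zp : End k V := (cp V π) ∘ₗ ((Z'.restrictScalars k) ∘ₗ (TensorProduct.mk k K V 1))
    have hZp : ∀ v, Zp v = cp V π (Z' ((1 : K) ⊗ₜ[k] v)) := fun _ => rfl
    have h2 := hg Zp fun Y hY => by
      refine LinearMap.ext fun v => ?_
      rw [Module.End.mul_apply, Module.End.mul_apply, hZp, hZp, ← cp_baseChange, ← hZ Y hY,
        LinearMap.baseChange_tmul]
    have h3 := congrArg (fun F : End k V => F v) h2
    simp only [Module.End.mul_apply] at h3
    rw [hZp, hZp, ← cp_baseChange] at h3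
    rw [map_sub, h3, sub_self]
  induction x with
  | zero => simp only [map_zero]
  | add a b ha hb => rw [map_add, map_add, ha, hb, map_add, map_add]
  | tmul c v =>
    have h2 : c ⊗ₜ[k] v = c • ((1 : K) ⊗ₜ[k] v) := by
      rw [TensorProduct.smul_tmul', smul_eq_mul, mul_one]
    rw [h2, map_smul, map_smul, map_smul, map_smul, LinearMap.baseChange_tmul, h1]

/-- the base change of an endomorphism which kills the Tate forms kills the Tate forms -/
theorem lieT_desc [FiniteDimensional k V] {Γ : Type} [Group Γ] (ρ : Representation k Γ V)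
    (χ : Γ →* k) {Y : End k V}
    (hY : ∀ (m : ℕ) (φ : MultilinearMap k (fun _ : Fin m × Fin 2 => V) k), IsTate ρ χ m φ →
      ∀ v, ∑ l, φ (Function.update v l (Y (v l))) = 0) :
    Y.baseChange K ∈ lieT (bcr ρ K) (bcc χ K) := by
  classical
  rintro m φ' ⟨Δ, hΔ, h⟩
  let b := finBasis k V
  let D : MultilinearMap K (fun _ : Fin m × Fin 2 => K ⊗[k] V) K :=
    ∑ l, φ'.compLinearMap (fun j => if j = l then Y.baseChange K else LinearMap.id)
  have hD : ∀ w, D w = ∑ l, φ' (Function.update w l (Y.baseChange K (w l))) := by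
    intro w
    simp only [D]
    rw [sum_apply]
    refine Finset.sum_congr rfl fun l _ => ?_
    rw [MultilinearMap.compLinearMap_apply]
    congr 1
    funext j
    by_cases hj : j = l
    · subst hj
      rw [if_pos rfl, Function.update_self]
    · rw [if_neg hj, Function.update_of_ne hj, LinearMap.id_apply]
  have hD0 : D = 0 := by
    refine Basis.ext_multilinear (fun _ => b.baseChange K) fun I => ?_
    rw [zero_apply, hD, ← Module.forall_dual_apply_eq_zero_iff k]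
    intro π
    let φp : MultilinearMap k (fun _ : Fin m × Fin 2 => V) k :=
      π.compMultilinearMap ((φ'.restrictScalars k).compLinearMap
        (fun _ => TensorProduct.mk k K V 1))
    have hφp : ∀ v, φp v = π (φ' (fun l => (1 : K) ⊗ₜ[k] v l)) := fun _ => rfl
    have hT : IsTate ρ χ m φp := by
      refine ⟨Δ, hΔ, fun s hs v => ?_⟩
      rw [hφp, hφp]
      have h1 := h s hs (fun l => (1 : K) ⊗ₜ[k] v l)
      simp only [bcr_tmul] at h1
      rw [h1, bcc_apply, ← map_pow, ← Algebra.smul_def, map_smul, smul_eq_mul]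
    have h2 := hY m φp hT (fun l => b (I l))
    rw [map_sum, ← h2]
    refine Finset.sum_congr rfl fun l _ => ?_
    rw [hφp]
    congr 2
    funext j
    by_cases hj : j = l
    · subst hj
      rw [Function.update_self, Function.update_self, Basis.baseChange_apply,
        LinearMap.baseChange_tmul]
    · rw [Function.update_of_ne hj, Function.update_of_ne hj, Basis.baseChange_apply]
  intro w
  rw [← hD, hD0, zero_apply]

end desc

end NS

open Pool.Agent.W5h23.Four Pool.Agent.Y114.RM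

/-- The Lie algebra of the Tate classes, over the algebraic closure, does not act by scalars on a
strongly irreducible subspace of dimension at least two. -/
theorem nonscalar (ℓ : ℕ) [Fact ℓ.Prime] {V : Type} [AddCommGroup V] [Module ℚ_[ℓ] V]
    [FiniteDimensional ℚ_[ℓ] V] {Γ : Type} [Group Γ] [TopologicalSpace Γ] [IsTopologicalGroup Γ]
    [CompactSpace Γ] (ρ : Representation ℚ_[ℓ] Γ V)
    (hcont : ∀ (f : Dual ℚ_[ℓ] V) (x : V), Continuous fun γ => f (ρ γ x)) (χ : Γ →* ℚ_[ℓ])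
    (ω : V →ₗ[ℚ_[ℓ]] V →ₗ[ℚ_[ℓ]] ℚ_[ℓ]) (hl : ∀ u, (∀ v, ω u v = 0) → u = 0)
    (hr : ∀ u, (∀ v, ω v u = 0) → u = 0) (hω : ∀ s u v, ω (ρ s u) (ρ s v) = χ s * ω u v)
    (hss : FiniteIndexSemisimple ρ)
    {U : Submodule (AlgebraicClosure ℚ_[ℓ]) (AlgebraicClosure ℚ_[ℓ] ⊗[ℚ_[ℓ]] V)}
    (hU : SI (bcr ρ (AlgebraicClosure ℚ_[ℓ])) U)
    (h2 : 2 ≤ finrank (AlgebraicClosure ℚ_[ℓ]) U) :
    ∃ Y ∈ lieT (bcr ρ (AlgebraicClosure ℚ_[ℓ])) (bcc χ (AlgebraicClosure ℚ_[ℓ])),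
      ¬∃ a : AlgebraicClosure ℚ_[ℓ], ∀ u ∈ U, Y u = a • u := by
  classical
  by_contra hcon
  push Not at hcon
  obtain ⟨hLie, hnd, hAd, hord⟩ := tateLie_props ω hl hω hss
  let C : Submodule ℚ_[ℓ] (End ℚ_[ℓ] V) :=
    { carrier := {Z | ∀ Y ∈ TateLie ρ χ ω, Y * Z = Z * Y}
      add_mem' := fun {a b} ha hb Y hY => by rw [mul_add, add_mul, ha Y hY, hb Y hY]
      zero_mem' := fun Y _ => by rw [mul_zero, zero_mul]
      smul_mem' := fun c a ha Y hY => by rw [mul_smul_comm, smul_mul_assoc, ha Y hY] }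
  have hinv : ∀ γ : Γ, ρ γ * ρ γ⁻¹ = 1 := fun γ => by rw [← map_mul, mul_inv_cancel, map_one]
  have hA : ∀ γ : Γ, ∀ Z ∈ C, AdE (ρ γ) (ρ γ⁻¹) Z ∈ C := by
    intro γ Z hZ Y hY
    have h1 : AdE (ρ γ⁻¹) (ρ γ) Y ∈ TateLie ρ χ ω := by
      have h3 := hAd γ⁻¹ Y hY
      rwa [inv_inv] at h3
    have h3 : AdE (ρ γ⁻¹) (ρ γ) Y * Z = Z * AdE (ρ γ⁻¹) (ρ γ) Y := hZ _ h1
    rw [AdE_apply] at h3 ⊢
    calc Y * (ρ γ * (Z * ρ γ⁻¹)) = (ρ γ * ρ γ⁻¹) * (Y * (ρ γ * (Z * ρ γ⁻¹))) := by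
          rw [hinv, one_mul]
      _ = ρ γ * (ρ γ⁻¹ * (Y * ρ γ) * Z) * ρ γ⁻¹ := by simp only [mul_assoc]
      _ = ρ γ * (Z * (ρ γ⁻¹ * (Y * ρ γ))) * ρ γ⁻¹ := by rw [h3]
      _ = ρ γ * (Z * ρ γ⁻¹) * Y * (ρ γ * ρ γ⁻¹) := by simp only [mul_assoc]
      _ = ρ γ * (Z * ρ γ⁻¹) * Y := by rw [hinv, mul_one]
  obtain ⟨Δ, hΔ, hΔC⟩ := exists_commuting ρ hcont C hA (fun γ => by
    obtain ⟨M, hM, h⟩ := hord γ
    exact ⟨M, hM, fun Z hZ => h Z hZ⟩)
  have hLT : ∀ Y ∈ TateLie ρ χ ω, Y.baseChange (AlgebraicClosure ℚ_[ℓ]) ∈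
      lieT (bcr ρ (AlgebraicClosure ℚ_[ℓ])) (bcc χ (AlgebraicClosure ℚ_[ℓ])) := fun Y hY =>
    NS.lieT_desc ρ χ (fun m φ hφ v => by
      have h1 := hY.2 m φ hφ v
      rwa [mul_zero, zero_mul] at h1)
  obtain ⟨Δ', hΔ', hst⟩ := id hU.2.1
  obtain ⟨p, hp1, hp2, hp3⟩ := hasProj_bcr ρ (AlgebraicClosure ℚ_[ℓ]) hss Δ' hΔ' U hst
  obtain ⟨u, hu, hu0⟩ := Submodule.exists_mem_ne_zero_of_ne_bot hU.1
  obtain ⟨f, hf⟩ : ∃ f : Dual (AlgebraicClosure ℚ_[ℓ]) (AlgebraicClosure ℚ_[ℓ] ⊗[ℚ_[ℓ]] V),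
      f u ≠ 0 := by
    by_contra h
    push Not at h
    exact hu0 ((Module.forall_dual_apply_eq_zero_iff (AlgebraicClosure ℚ_[ℓ]) u).1 h)
  let Z' : End (AlgebraicClosure ℚ_[ℓ]) (AlgebraicClosure ℚ_[ℓ] ⊗[ℚ_[ℓ]] V) :=
    (f ∘ₗ p).smulRight u
  have hZ' : ∀ w, Z' w = f (p w) • u := fun _ => rfl
  have hcomm : ∀ Y ∈ TateLie ρ χ ω, ∀ x, Z' (Y.baseChange (AlgebraicClosure ℚ_[ℓ]) x) =
      Y.baseChange (AlgebraicClosure ℚ_[ℓ]) (Z' x) := by
    intro Y hY x
    obtain ⟨a, ha⟩ := hcon _ (hLT Y hY)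
    have h1 := Pool.Agent.W839.OT.HTFam.comm (bcr ρ (AlgebraicClosure ℚ_[ℓ]))
      (bcc χ (AlgebraicClosure ℚ_[ℓ])) (bcb (AlgebraicClosure ℚ_[ℓ]) ω)
      (bcb_nondeg_left ω hr hl) (bcb_inv ρ χ ω hω) Δ' hΔ' p hp3 _ (hLT Y hY) x
    rw [hZ', hZ', ← h1, ha _ (hp1 x), map_smul, map_smul, ha u hu, smul_eq_mul, smul_smul,
      mul_comm]
  have hstab : ∀ γ ∈ Δ, bcr ρ (AlgebraicClosure ℚ_[ℓ]) γ u ∈
      Submodule.span (AlgebraicClosure ℚ_[ℓ]) {u} := by
    intro γ hγ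
    have h1 : Z' (bcr ρ (AlgebraicClosure ℚ_[ℓ]) γ u) = bcr ρ (AlgebraicClosure ℚ_[ℓ]) γ (Z' u) :=
      NS.comm_desc (TateLie ρ χ ω : Set (End ℚ_[ℓ] V)) (ρ γ) (fun Z hZ => hΔC γ hγ Z hZ) Z'
        hcomm u
    rw [hZ', hZ', hp2 u hu, map_smul] at h1
    have h3 : bcr ρ (AlgebraicClosure ℚ_[ℓ]) γ u =
        ((f u)⁻¹ * f (p (bcr ρ (AlgebraicClosure ℚ_[ℓ]) γ u))) • u := by
      rw [mul_smul, h1, smul_smul, inv_mul_cancel₀ hf, one_smul]
    rw [h3]
    exact Submodule.smul_mem _ _ (Submodule.mem_span_singleton_self u)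
  have hPot : Pot (bcr ρ (AlgebraicClosure ℚ_[ℓ]))
      (Submodule.span (AlgebraicClosure ℚ_[ℓ]) {u}) := by
    refine ⟨Δ, hΔ, fun g hg w hw => ?_⟩
    obtain ⟨c, rfl⟩ := Submodule.mem_span_singleton.1 hw
    rw [map_smul]
    exact Submodule.smul_mem _ _ (hstab g hg)
  rcases hU.2.2 _ ((Submodule.span_singleton_le_iff_mem u U).2 hu) hPot with h | h
  · exact hu0 (Submodule.span_singleton_eq_bot.1 h)
  · rw [← h, finrank_span_singleton hu0] at h2
    omega

end Pool.Agent.W5h27.UN
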